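import Pool.Agent.W5h64.TT.RigD

/-! The first Tachikawa conjecture for algebras whose simple modules have small syzygies. -/

namespace Pool.Agent.Results.MP_68f647_al.SimplesSmallSyzygies

open W5h64.TT

universe u

/-- Let `A` be a finite-dimensional algebra over a field `k` and `S` an infinite set of natural
numbers such that every simple `A`-module has a resolution by finitely generated projective
modules whose `n`-th syzygies, `n ∈ S`, have bounded dimension (for instance, the simple modules
have bounded Betti numbers). Then every finitely generated `M` with `Ext^i(M, A) = 0` for all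
`i ≥ 1` that is injective or satisfies `Ext^i(M, M) = 0` for all `i ≥ 1` is projective; and if
`Ext^i(D(A), A) = 0` for all `i ≥ 1` then `A` is injective as a right module. -/
theorem result (k : Type u) [Field k] (A : Type u) [Ring A] [Algebra k A]
    [Module.Finite k A] (S : Set ℕ) (hS : S.Infinite)
    (hT : ∀ (T : Type u) [AddCommGroup T] [Module A T], IsSimpleModule A T →
      ∃ c, SmallRes k A S c T)
    (M : Type u) [AddCommGroup M] [Module A M] [Module.Finite A M]
    (hA : ∀ i, 1 ≤ i → ExtZero A M A i)
    (hM : Module.Injective A M ∨ ∀ i, 1 ≤ i → ExtZero A M M i) :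
    Module.Projective A M ∧ (Nonempty (M ≃ₗ[A] DA k A) → Module.Injective Aᵐᵒᵖ A) := by
  have hE : ∀ i, 1 ≤ i → ExtZero A M M i := by
    rcases hM with hI | hE
    · intro i h1
      obtain ⟨j, rfl⟩ : ∃ j, i = j + 1 := ⟨i - 1, by omega⟩
      exact ext_injective hI j
    · exact hE
  have hP : Module.Projective A M := projective_of_simple_small hS hT M hA hE
  exact ⟨hP, fun ⟨e⟩ => op_injective k A (Module.Projective.of_equiv e)⟩

end Pool.Agent.Results.MP_68f647_al.SimplesSmallSyzygies
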